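import Pool.Agent.H12.SP.Defs

/-!
# MP_634266_nt, module PAIR: an exceptional number gives many pairs `(l, p)`
-/

set_option autoImplicit false

namespace Pool.Agent.H85.SP2

open Finset Pool.Agent.H12.SP

theorem LL_eq (n : ℕ) : LL n = range (Nat.clog 2 n) := by
  ext l
  simp only [LL, mem_filter, mem_range]
  rw [Nat.lt_clog_iff_pow_lt (by norm_num)]
  refine ⟨fun h => h.2, fun h => ⟨?_, h⟩⟩
  exact lt_trans (Nat.lt_two_pow_self) h

theorem od_dvd_pred (p : ℕ) (hp : p.Prime) (h2 : p ≠ 2) : od p ∣ p - 1 := by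
  have : Fact p.Prime := ⟨hp⟩
  have h1 : (2 : ZMod p) ^ (p - 1) = 1 := by
    refine ZMod.pow_card_sub_one_eq_one ?_
    intro h
    have h3 : ((2 : ℕ) : ZMod p) = 0 := by exact_mod_cast h
    rw [ZMod.natCast_eq_zero_iff] at h3
    exact h2 ((Nat.prime_dvd_prime_iff_eq hp Nat.prime_two).1 h3)
  exact orderOf_dvd_of_pow_eq_one h1

theorem dvd_diff (n q a b : ℕ) (ha : 2 ^ a < n) (hb : 2 ^ b < n) (hab : a < b)
    (h1 : q ∣ n - 2 ^ a) (h2 : q ∣ n - 2 ^ b) : q ∣ 2 ^ b - 2 ^ a := by
  have h3 : 2 ^ a < 2 ^ b := Nat.pow_lt_pow_right (by norm_num) hab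
  have h4 : 2 ^ b - 2 ^ a = (n - 2 ^ a) - (n - 2 ^ b) := by omega
  rw [h4]
  exact Nat.dvd_sub h1 h2

/-- number of elements of a residue class below `L` -/
theorem class_card (L d : ℕ) (F : Finset ℕ) (hF : F ⊆ range L)
    (h : ∀ a ∈ F, ∀ b ∈ F, a < b → d ∣ b - a) : F.card ≤ L / d + 1 := by
  have h1 : F.card ≤ (range (L / d + 1)).card := by
    apply Finset.card_le_card_of_injOn (fun l => l / d)
    · intro l hl
      have hl' := mem_range.1 (hF hl)
      simp only [coe_range, Set.mem_Iio]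
      have : l / d ≤ L / d := Nat.div_le_div_right hl'.le
      omega
    · have key : ∀ a ∈ F, ∀ b ∈ F, a < b → a / d ≠ b / d := by
        intro a ha b hb hab he
        obtain ⟨c, hc⟩ := h a ha b hb hab
        have hb' : b = a + d * c := by omega
        have hd : 0 < d := by
          rcases Nat.eq_zero_or_pos d with h0 | h0
          · rw [h0] at hc
            omega
          · exact h0
        rw [hb', Nat.add_mul_div_left _ _ hd] at he
        have hc0 : c = 0 := by omega
        rw [hc0] at hc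
        omega
      intro a ha b hb he
      rcases lt_trichotomy a b with h2 | h2 | h2
      · exact absurd he (key a ha b hb h2)
      · exact h2
      · exact absurd he.symm (key b hb a ha h2)
  rwa [card_range] at h1

theorem pf_pair (hORD : T_ORD) (hSIG : T_SIG) : T_PAIR := by
  classical
  obtain ⟨Y, hY⟩ : ∃ Y : ℕ, 2 ^ 200 ≤ Y := ⟨_, le_refl _⟩
  refine ⟨2 ^ (100 * Y), ?_⟩
  intro x n hx hn hxn
  -- the basic quantities
  have hx0 : x ≠ 0 := by
    have : 0 < 2 ^ (100 * Y) := by positivity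
    omega
  set lam := Nat.log 2 x with hlam
  have hy1 : 100 * yy x ≤ lam := by
    unfold yy
    omega
  have hy2 : lam < 100 * yy x + 100 := by
    unfold yy
    omega
  have hlamY : 100 * Y ≤ lam := by
    rw [hlam]
    exact (Nat.le_log_iff_pow_le (by norm_num) hx0).2 hx
  have hyY : Y ≤ yy x := by
    unfold yy
    omega
  obtain ⟨y, hy⟩ : ∃ y, y = yy x := ⟨_, rfl⟩
  rw [← hy] at hy1 hy2 hyY ⊢
  have hybig : 2 ^ 200 ≤ y := hY.trans hyY
  have hy1000 : 1000 ≤ y := le_trans (by norm_num) hybig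
  have hmem : n ∈ (range (x + 1)).filter fun n => Odd n ∧ 4 * (GG n).card < (LL n).card := by
    have := hn
    unfold EX at this
    convert this using 2
  obtain ⟨hnx, hodd, hGG⟩ := Finset.mem_filter.1 hmem
  have hnx' : n ≤ x := by
    have := mem_range.1 hnx
    omega
  obtain ⟨L, hL⟩ : ∃ L, L = Nat.clog 2 n := ⟨_, rfl⟩
  have hLL : LL n = range L := by rw [LL_eq, hL]
  have hcard : (LL n).card = L := by rw [hLL, card_range]
  rw [hcard] at hGG
  have hlt : ∀ l, l < L ↔ 2 ^ l < n := by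
    intro l
    rw [hL, Nat.lt_clog_iff_pow_lt (by norm_num)]
  have hnL : n ≤ 2 ^ L := by
    rw [hL]
    exact Nat.le_pow_clog (by norm_num) n
  -- 2 lam ≤ 3 L
  have hL1 : 2 * lam ≤ 3 * L := by
    have h1 : 2 ^ lam ≤ x := Nat.pow_log_le_self 2 hx0
    have h2 : 2 ^ (2 * lam) ≤ 2 ^ (3 * L) := by
      calc 2 ^ (2 * lam) = (2 ^ lam) ^ 2 := by rw [mul_comm, pow_mul]
        _ ≤ x ^ 2 := Nat.pow_le_pow_left h1 2
        _ ≤ n ^ 3 := hxn
        _ ≤ (2 ^ L) ^ 3 := Nat.pow_le_pow_left hnL 3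
        _ = 2 ^ (3 * L) := by rw [mul_comm 3 L, pow_mul]
    exact (Nat.pow_le_pow_iff_right (by norm_num : 1 < 2)).1 h2
  have hL2 : L ≤ lam + 1 := by
    rw [hL]
    apply Nat.clog_le_of_le_pow
    have : x < 2 ^ (lam + 1) := Nat.lt_pow_succ_log_self (by norm_num) x
    omega
  -- the bad exponents
  set Bd := (LL n \ GG n).erase 0 with hBd
  have hGGsub : GG n ⊆ LL n := by
    unfold GG
    exact Finset.filter_subset _ _
  have hcardBd : 3 * L < 4 * (Bd.card + 1) := by
    have h1 : (LL n \ GG n).card = L - (GG n).card := by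
      rw [Finset.card_sdiff_of_subset hGGsub, hcard]
    have h2 : (LL n \ GG n).card - 1 ≤ Bd.card := Finset.pred_card_le_card_erase
    omega
  have hbad : ∀ l ∈ Bd, ∃ p : ℕ, p.Prime ∧ p ^ 2 ∣ n - 2 ^ l ∧ ¬ (Wief p ∧ 2 ^ od p ≤ n) := by
    intro l hl
    rw [hBd, Finset.mem_erase, Finset.mem_sdiff] at hl
    obtain ⟨h0, h1, h2⟩ := hl
    by_contra hcon
    push Not at hcon
    apply h2
    unfold GG
    rw [Finset.mem_filter]
    refine ⟨h1, ?_⟩
    intro p hp hdvd
    exact hcon p hp hdvd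
  choose! p hp using hbad
  have hBdlt : ∀ l ∈ Bd, l < L ∧ l ≠ 0 := by
    intro l hl
    rw [hBd, Finset.mem_erase, Finset.mem_sdiff] at hl
    refine ⟨?_, hl.1⟩
    have := hl.2.1
    rw [hLL] at this
    exact mem_range.1 this
  have hp2 : ∀ l ∈ Bd, p l ≠ 2 := by
    intro l hl he
    obtain ⟨h1, h2, h3⟩ := hp l hl
    obtain ⟨h4, h5⟩ := hBdlt l hl
    rw [he] at h2
    have h6 : 2 ∣ n - 2 ^ l := dvd_trans (by norm_num) h2
    have h7 : 2 ∣ 2 ^ l := dvd_pow_self 2 h5
    have h8 : 2 ^ l < n := (hlt l).1 h4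
    have h9 : 2 ∣ n := by
      have := (Nat.dvd_add_right h7).2 h6
      rwa [Nat.add_sub_cancel' h8.le] at this
    rw [← Nat.not_even_iff_odd] at hodd
    exact hodd (even_iff_two_dvd.2 h9)
  set S := Bd.filter (fun l => y < p l) with hS
  set R := Bd.filter (fun l => ¬ y < p l) with hR
  have hSR : S.card + R.card = Bd.card := by
    rw [hS, hR]
    exact Finset.card_filter_add_card_filter_not _
  -- the primes at most y
  have hRnW : ∀ l ∈ R, ¬ Wief (p l) := by
    intro l hl hW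
    rw [hR, Finset.mem_filter] at hl
    obtain ⟨hl1, hl2⟩ := hl
    obtain ⟨h1, h2, h3⟩ := hp l hl1
    apply h3
    refine ⟨hW, ?_⟩
    have h4 : od (p l) ≤ p l - 1 := by
      apply Nat.le_of_dvd _ (od_dvd_pred (p l) h1 (hp2 l hl1))
      have := h1.two_le
      omega
    have h5 : od (p l) < L := by omega
    exact ((hlt _).1 h5).le
  have hRcard : (R.card : ℝ) ≤ 71 / 100 * L + y := by
    have hQ : ∀ l ∈ R, p l ∈ R.image p := fun l hl => Finset.mem_image_of_mem p hl
    rw [Finset.card_eq_sum_card_fiberwise hQ]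
    push_cast
    have hfib : ∀ q ∈ R.image p, (((R.filter (fun l => p l = q)).card : ℕ) : ℝ) ≤
        (L : ℝ) * (1 / (q * od q)) + 1 := by
      intro q hq
      obtain ⟨l0, hl0, hl0q⟩ := Finset.mem_image.1 hq
      have hl0B : l0 ∈ Bd := by
        rw [hR, Finset.mem_filter] at hl0
        exact hl0.1
      have hqp : q.Prime := hl0q ▸ (hp l0 hl0B).1
      have hq2 : q ≠ 2 := hl0q ▸ hp2 l0 hl0B
      have hqW : ¬ Wief q := hl0q ▸ hRnW l0 hl0
      have h1 : (R.filter (fun l => p l = q)).card ≤ L / (q * od q) + 1 := by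
        apply class_card
        · intro l hl
          rw [Finset.mem_filter, hR, Finset.mem_filter] at hl
          exact mem_range.2 (hBdlt l hl.1.1).1
        · intro a ha b hb hab
          rw [Finset.mem_filter, hR, Finset.mem_filter] at ha hb
          apply hORD.2.2 q hqp hq2 hqW a b hab
          apply dvd_diff n (q ^ 2) a b _ _ hab
          · rw [← ha.2]
            exact (hp a ha.1.1).2.1
          · rw [← hb.2]
            exact (hp b hb.1.1).2.1
          · exact (hlt a).1 (hBdlt a ha.1.1).1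
          · exact (hlt b).1 (hBdlt b hb.1.1).1
      calc (((R.filter (fun l => p l = q)).card : ℕ) : ℝ) ≤ ((L / (q * od q) + 1 : ℕ) : ℝ) := by
            exact_mod_cast h1
        _ = ((L / (q * od q) : ℕ) : ℝ) + 1 := by push_cast; rfl
        _ ≤ (L : ℝ) / ((q * od q : ℕ) : ℝ) + 1 := by
            have := @Nat.cast_div_le ℝ _ _ _ L (q * od q)
            linarith
        _ = (L : ℝ) * (1 / (q * od q)) + 1 := by
            push_cast
            ring
    refine (Finset.sum_le_sum hfib).trans ?_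
    rw [Finset.sum_add_distrib, ← Finset.mul_sum, Finset.sum_const, nsmul_eq_mul, mul_one]
    have h1 : ∑ q ∈ R.image p, (1 : ℝ) / (q * od q) ≤ 71 / 100 := by
      apply hSIG
      intro q hq
      obtain ⟨l0, hl0, hl0q⟩ := Finset.mem_image.1 hq
      have hl0B : l0 ∈ Bd := by
        rw [hR, Finset.mem_filter] at hl0
        exact hl0.1
      exact ⟨hl0q ▸ (hp l0 hl0B).1, hl0q ▸ hp2 l0 hl0B⟩
    have h2 : (R.image p).card ≤ y := by
      have h3 : R.image p ⊆ Finset.Icc 1 y := by
        intro q hq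
        obtain ⟨l0, hl0, hl0q⟩ := Finset.mem_image.1 hq
        rw [hR, Finset.mem_filter] at hl0
        rw [Finset.mem_Icc, ← hl0q]
        refine ⟨(hp l0 hl0.1).1.one_lt.le, not_lt.1 hl0.2⟩
      have h4 := Finset.card_le_card h3
      rwa [Nat.card_Icc, Nat.add_sub_cancel] at h4
    have h5 : ((R.image p).card : ℝ) ≤ y := by exact_mod_cast h2
    have h6 : (L : ℝ) * ∑ q ∈ R.image p, (1 : ℝ) / (q * od q) ≤ L * (71 / 100) :=
      mul_le_mul_of_nonneg_left h1 (Nat.cast_nonneg _)
    linarith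
  refine ⟨S, p, ?_, ?_, ?_⟩
  · have h1 : (3 : ℝ) * L < 4 * (Bd.card + 1) := by exact_mod_cast hcardBd
    have h2 : (S.card : ℝ) + R.card = Bd.card := by exact_mod_cast hSR
    have h3 : (2 : ℝ) * lam ≤ 3 * L := by exact_mod_cast hL1
    have h4 : (100 : ℝ) * y ≤ lam := by exact_mod_cast hy1
    have h5 : (1000 : ℝ) ≤ y := by exact_mod_cast hy1000
    have h6 : (y : ℝ) ≤ S.card := by linarith
    exact_mod_cast h6
  · -- injectivity
    have key : ∀ a ∈ S, ∀ b ∈ S, p a = p b → ¬ a < b := by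
      intro a ha b hb hab hlt'
      rw [hS, Finset.mem_filter] at ha hb
      obtain ⟨ha1, ha2⟩ := ha
      obtain ⟨hb1, hb2⟩ := hb
      obtain ⟨ha3, ha4, ha5⟩ := hp a ha1
      obtain ⟨hb3, hb4, hb5⟩ := hp b hb1
      have hbL := (hBdlt b hb1).1
      have haL := (hBdlt a ha1).1
      have hdv : p b ^ 2 ∣ 2 ^ b - 2 ^ a := by
        apply dvd_diff n _ a b ((hlt a).1 haL) ((hlt b).1 hbL) hlt' _ hb4
        rw [← hab]
        exact ha4
      by_cases hW : Wief (p b)
      · have h1 : ¬ 2 ^ od (p b) ≤ n := fun h => hb5 ⟨hW, h⟩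
        have h2 : p b ∣ 2 ^ b - 2 ^ a := dvd_trans (dvd_pow_self _ (by norm_num)) hdv
        have h3 := hORD.2.1 (p b) hb3 (hp2 b hb1) a b hlt' h2
        have h4 : od (p b) ≤ b - a := Nat.le_of_dvd (by omega) h3
        have h5 : od (p b) < L := by omega
        exact h1 ((hlt _).1 h5).le
      · have h3 := hORD.2.2 (p b) hb3 (hp2 b hb1) hW a b hlt' hdv
        have h4 : p b * od (p b) ≤ b - a := Nat.le_of_dvd (by omega) h3
        have h5 : 200 < od (p b) := by
          have h6 := (hORD.1 (p b) hb3 (hp2 b hb1)).2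
          have h7 : 2 ^ 200 < 2 ^ od (p b) := by
            calc 2 ^ 200 ≤ y := hybig
              _ < p b := hb2
              _ < 2 ^ od (p b) := h6
          exact (Nat.pow_lt_pow_iff_right (by norm_num : 1 < 2)).1 h7
        have h8 : y * 200 ≤ p b * od (p b) := Nat.mul_le_mul hb2.le h5.le
        omega
    intro a ha b hb hab
    rcases lt_trichotomy a b with h | h | h
    · exact absurd h (key a ha b hb hab)
    · exact h
    · exact absurd h (key b hb a ha hab.symm)
  · intro l hl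
    rw [hS, Finset.mem_filter] at hl
    obtain ⟨hl1, hl2⟩ := hl
    obtain ⟨h1, h2, h3⟩ := hp l hl1
    exact ⟨(hlt l).1 (hBdlt l hl1).1, h1, hp2 l hl1, hl2, h2⟩

end Pool.Agent.H85.SP2
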