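import Pool.Agent.H12.SP.Defs

/-!
# MP_634266_nt, module SIG: the sum of `1 / (p ord_p(2))` over the odd primes is at most `71/100`
-/

set_option autoImplicit false

namespace Pool.Agent.H85.SP2

open Finset Pool.Agent.H12.SP

theorem od_ge (p v : ℕ) (h0 : 0 < od p) (h1 : 1 < p)
    (h : ∀ k ∈ Finset.Ioo 0 v, 2 ^ k % p ≠ 1) : v ≤ od p := by
  by_contra hlt
  push Not at hlt
  have hk := h (od p) (Finset.mem_Ioo.2 ⟨h0, hlt⟩)
  apply hk
  have h2 : (2 : ZMod p) ^ od p = 1 := pow_orderOf_eq_one _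
  have h3 : ((2 ^ od p : ℕ) : ZMod p) = ((1 : ℕ) : ZMod p) := by
    push_cast
    exact h2
  have h4 := (ZMod.natCast_eq_natCast_iff _ _ _).1 h3
  have h5 : 2 ^ od p % p = 1 % p := h4
  rw [h5]
  exact Nat.mod_eq_of_lt h1

/-- the small primes -/
theorem small_sum (hORD : T_ORD) (P : Finset ℕ) (hP : ∀ p ∈ P, p.Prime ∧ p ≠ 2)
    (hs : ∀ p ∈ P, p < 32) : ∑ p ∈ P, (1 : ℝ) / (p * od p) ≤ 302 / 1000 := by
  have hsub : P ⊆ ({3, 5, 7, 11, 13, 17, 19, 23, 29, 31} : Finset ℕ) := by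
    intro p hp
    obtain ⟨h1, h2⟩ := hP p hp
    have h3 := hs p hp
    revert h1 h2
    interval_cases p <;> decide
  have hle : ∑ p ∈ P, (1 : ℝ) / (p * od p) ≤
      ∑ p ∈ ({3, 5, 7, 11, 13, 17, 19, 23, 29, 31} : Finset ℕ), (1 : ℝ) / (p * od p) := by
    apply Finset.sum_le_sum_of_subset_of_nonneg hsub
    intro i _ _
    positivity
  refine hle.trans ?_
  have key : ∀ p v : ℕ, 1 < v → p.Prime → p ≠ 2 → (∀ k ∈ Finset.Ioo 0 v, 2 ^ k % p ≠ 1) →
      (1 : ℝ) / (p * od p) ≤ 1 / (p * v) := by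
    intro p v hv hp h2 h
    have h1 := od_ge p v (hORD.1 p hp h2).1 hp.one_lt h
    have h3 : (0 : ℝ) < p := by exact_mod_cast hp.pos
    have h4 : (0 : ℝ) < v := by exact_mod_cast (by omega : 0 < v)
    apply one_div_le_one_div_of_le (by positivity)
    have h5 : (v : ℝ) ≤ od p := by exact_mod_cast h1
    exact mul_le_mul_of_nonneg_left h5 h3.le
  have e3 := key 3 2 (by norm_num) (by norm_num) (by norm_num) (by decide)
  have e5 := key 5 4 (by norm_num) (by norm_num) (by norm_num) (by decide)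
  have e7 := key 7 3 (by norm_num) (by norm_num) (by norm_num) (by decide)
  have e11 := key 11 10 (by norm_num) (by norm_num) (by norm_num) (by decide)
  have e13 := key 13 12 (by norm_num) (by norm_num) (by norm_num) (by decide)
  have e17 := key 17 8 (by norm_num) (by norm_num) (by norm_num) (by decide)
  have e19 := key 19 18 (by norm_num) (by norm_num) (by norm_num) (by decide)
  have e23 := key 23 11 (by norm_num) (by norm_num) (by norm_num) (by decide)
  have e29 := key 29 28 (by norm_num) (by norm_num) (by norm_num) (by decide)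
  have e31 := key 31 5 (by norm_num) (by norm_num) (by norm_num) (by decide)
  rw [Finset.sum_insert (by decide), Finset.sum_insert (by decide), Finset.sum_insert (by decide),
    Finset.sum_insert (by decide), Finset.sum_insert (by decide), Finset.sum_insert (by decide),
    Finset.sum_insert (by decide), Finset.sum_insert (by decide), Finset.sum_insert (by decide),
    Finset.sum_singleton]
  norm_num at e3 e5 e7 e11 e13 e17 e19 e23 e29 e31 ⊢
  linarith

theorem dvd_centralBinom (N p : ℕ) (hp : p.Prime) (h1 : N < p) (h2 : p ≤ 2 * N) :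
    p ∣ Nat.centralBinom N := by
  have h3 : Nat.choose (2 * N) N * Nat.factorial N * Nat.factorial (2 * N - N) =
      Nat.factorial (2 * N) := Nat.choose_mul_factorial_mul_factorial (by omega)
  have h4 : p ∣ Nat.factorial (2 * N) := (Nat.Prime.dvd_factorial hp).2 h2
  rw [← h3] at h4
  have h5 : ¬ p ∣ Nat.factorial N := fun h => by
    have := (Nat.Prime.dvd_factorial hp).1 h
    omega
  have h6 : ¬ p ∣ Nat.factorial (2 * N - N) := fun h => by
    have := (Nat.Prime.dvd_factorial hp).1 h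
    omega
  rcases (Nat.Prime.dvd_mul hp).1 h4 with h | h
  · rcases (Nat.Prime.dvd_mul hp).1 h with h | h
    · rw [Nat.centralBinom_eq_two_mul_choose]
      exact h
    · exact absurd h h5
  · exact absurd h h6

theorem block_card (k : ℕ) (B : Finset ℕ)
    (hB : ∀ p ∈ B, p.Prime ∧ 2 ^ k < p ∧ p ≤ 2 ^ (k + 1)) : B.card * k ≤ 2 ^ (k + 1) := by
  have h1 : ∏ p ∈ B, p ∣ Nat.centralBinom (2 ^ k) := by
    apply Finset.prod_primes_dvd
    · intro p hp
      exact (hB p hp).1.prime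
    · intro p hp
      obtain ⟨h1, h2, h3⟩ := hB p hp
      apply dvd_centralBinom _ _ h1 h2
      rw [pow_succ] at h3
      omega
  have h2 : ∏ p ∈ B, p ≤ Nat.centralBinom (2 ^ k) :=
    Nat.le_of_dvd (Nat.centralBinom_pos _) h1
  have h3 : Nat.centralBinom (2 ^ k) ≤ 2 ^ (2 ^ (k + 1)) := by
    rw [Nat.centralBinom_eq_two_mul_choose]
    have := Nat.choose_le_two_pow (2 * 2 ^ k) (2 ^ k)
    rw [pow_succ 2 k, mul_comm (2 ^ k) 2]
    exact this
  have h4 : (2 ^ k) ^ B.card ≤ ∏ p ∈ B, p := by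
    apply Finset.pow_card_le_prod
    intro p hp
    exact (hB p hp).2.1.le
  have h5 : 2 ^ (k * B.card) ≤ 2 ^ (2 ^ (k + 1)) := by
    rw [pow_mul]
    exact h4.trans (h2.trans h3)
  have h6 := (Nat.pow_le_pow_iff_right (by norm_num : 1 < 2)).1 h5
  rw [mul_comm]
  exact h6

theorem block_sum (hORD : T_ORD) (k : ℕ) (hk : 5 ≤ k) (B : Finset ℕ)
    (hB : ∀ p ∈ B, p.Prime ∧ 2 ^ k < p ∧ p ≤ 2 ^ (k + 1)) :
    ∑ p ∈ B, (1 : ℝ) / (p * od p) ≤ 2 / (k * (k + 1)) := by
  have hkp : (0 : ℝ) < k := by exact_mod_cast (by omega : 0 < k)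
  have h1 : ∀ p ∈ B, (1 : ℝ) / (p * od p) ≤ 1 / (2 ^ k * (k + 1)) := by
    intro p hp
    obtain ⟨h1, h2, h3⟩ := hB p hp
    have hp2 : p ≠ 2 := by
      rintro rfl
      have : 2 ^ 1 ≤ 2 ^ k := Nat.pow_le_pow_right (by norm_num) (by omega)
      omega
    have h4 := (hORD.1 p h1 hp2).2
    have h5 : k < od p := by
      have : 2 ^ k < 2 ^ od p := h2.trans h4
      exact (Nat.pow_lt_pow_iff_right (by norm_num : 1 < 2)).1 this
    apply one_div_le_one_div_of_le (by positivity)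
    have h6 : ((2 : ℝ) ^ k) ≤ p := by exact_mod_cast h2.le
    have h7 : ((k : ℝ) + 1) ≤ od p := by exact_mod_cast h5
    exact mul_le_mul h6 h7 (by positivity) (by positivity)
  refine (Finset.sum_le_sum h1).trans ?_
  rw [Finset.sum_const, nsmul_eq_mul]
  have h8 : (B.card : ℝ) * k ≤ 2 ^ (k + 1) := by exact_mod_cast block_card k B hB
  rw [mul_one_div, div_le_div_iff₀ (by positivity) (by positivity)]
  have h9 : (0 : ℝ) < (k : ℝ) + 1 := by positivity
  calc (B.card : ℝ) * (k * (k + 1)) = ((B.card : ℝ) * k) * (k + 1) := by ring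
    _ ≤ 2 ^ (k + 1) * (k + 1) := mul_le_mul_of_nonneg_right h8 h9.le
    _ = 2 * (2 ^ k * (k + 1)) := by rw [pow_succ]; ring

theorem tele (j : ℕ) : ∑ k ∈ Finset.Ico 5 (5 + j), (2 : ℝ) / (k * (k + 1)) =
    2 / 5 - 2 / (5 + j) := by
  induction j with
  | zero => simp
  | succ j ih =>
    rw [← add_assoc, Finset.sum_Ico_succ_top (by omega), ih]
    push_cast
    have h1 : (5 + (j : ℝ)) ≠ 0 := by positivity
    have h2 : (5 + (j : ℝ) + 1) ≠ 0 := by positivity
    have h3 : (5 + ((j : ℝ) + 1)) ≠ 0 := by positivity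
    field_simp
    ring

theorem large_sum (hORD : T_ORD) (P : Finset ℕ) (hP : ∀ p ∈ P, p.Prime ∧ p ≠ 2)
    (hs : ∀ p ∈ P, 32 ≤ p) : ∑ p ∈ P, (1 : ℝ) / (p * od p) ≤ 2 / 5 := by
  obtain ⟨K, hK⟩ : ∃ K : ℕ, ∀ p ∈ P, Nat.log 2 p < 5 + K :=
    ⟨P.sup (Nat.log 2) + 1, fun p hp => by
      have : Nat.log 2 p ≤ P.sup (Nat.log 2) := Finset.le_sup (f := Nat.log 2) hp
      omega⟩
  have hmap : ∀ p ∈ P, Nat.log 2 p ∈ Finset.Ico 5 (5 + K) := by
    intro p hp
    rw [Finset.mem_Ico]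
    refine ⟨?_, hK p hp⟩
    have : Nat.log 2 32 ≤ Nat.log 2 p := Nat.log_mono_right (hs p hp)
    have h32 : Nat.log 2 32 = 5 := by
      rw [show (32 : ℕ) = 2 ^ 5 by norm_num]
      exact Nat.log_pow (by norm_num) 5
    omega
  rw [← Finset.sum_fiberwise_of_maps_to hmap]
  have h1 : ∀ k ∈ Finset.Ico 5 (5 + K),
      ∑ p ∈ P.filter (fun p => Nat.log 2 p = k), (1 : ℝ) / (p * od p) ≤ 2 / (k * (k + 1)) := by
    intro k hk
    rw [Finset.mem_Ico] at hk
    apply block_sum hORD k hk.1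
    intro p hp
    rw [Finset.mem_filter] at hp
    obtain ⟨hp1, hp2⟩ := hp
    obtain ⟨hp3, hp4⟩ := hP p hp1
    have hle : 2 ^ k ≤ p := by
      rw [← hp2]
      exact Nat.pow_log_le_self 2 hp3.ne_zero
    have hlt : p < 2 ^ (k + 1) := by
      rw [← hp2]
      exact Nat.lt_pow_succ_log_self (by norm_num) p
    refine ⟨hp3, lt_of_le_of_ne hle ?_, hlt.le⟩
    intro he
    have : ¬ (2 ^ k).Prime := Nat.Prime.not_prime_pow (by omega)
    exact this (he ▸ hp3)
  refine (Finset.sum_le_sum h1).trans ?_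
  rw [tele]
  have : (0 : ℝ) ≤ 2 / (5 + K) := by positivity
  linarith

theorem pf_sig (hORD : T_ORD) : T_SIG := by
  intro P hP
  rw [← Finset.sum_filter_add_sum_filter_not P (fun p => p < 32)]
  have h1 := small_sum hORD (P.filter (fun p => p < 32))
    (fun p hp => hP p (Finset.mem_filter.1 hp).1) (fun p hp => (Finset.mem_filter.1 hp).2)
  have h2 := large_sum hORD (P.filter (fun p => ¬ p < 32))
    (fun p hp => hP p (Finset.mem_filter.1 hp).1)
    (fun p hp => not_lt.1 (Finset.mem_filter.1 hp).2)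
  linarith

end Pool.Agent.H85.SP2
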